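import Pool.Agent.N909.CL.Def

set_option autoImplicit false

/-! # Project CL, part C: the sum of the weights of the paths which meet the first one -/

namespace Pool.Agent.N950.CL

open Pool.Agent.N909.CL Pool.Agent.N909.CM Pool.Agent.R528.RM

theorem phi_nonneg {L : ℝ} (hL : 0 ≤ L) (g : ℕ → Option Bool) (n : ℕ) (w : List Bool) :
    0 ≤ Phi L g n w := by
  induction w generalizing n with
  | nil => simp [Phi]
  | cons d w ih =>
    unfold Phi
    refine mul_nonneg ?_ (ih _)
    cases g n with
    | none => simp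
    | some e =>
      dsimp only
      split_ifs
      · exact hL
      · exact le_rfl

/-- all words of length `m` -/
def Wd : ℕ → Finset (List Bool)
  | 0 => {[]}
  | m + 1 => (Wd m).image (List.cons true) ∪ (Wd m).image (List.cons false)

theorem mem_Wd (m : ℕ) : ∀ t : List Bool, t.length = m → t ∈ Wd m := by
  induction m with
  | zero =>
    intro t ht
    rw [List.length_eq_zero_iff.1 ht]
    simp [Wd]
  | succ m ih =>
    intro t ht
    cases t with
    | nil => simp at ht
    | cons d t =>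
      have h1 := ih t (by simpa using ht)
      unfold Wd
      rw [Finset.mem_union, Finset.mem_image, Finset.mem_image]
      cases d
      · exact Or.inr ⟨t, h1, rfl⟩
      · exact Or.inl ⟨t, h1, rfl⟩

theorem sum_Wd {L : ℝ} (hL : 2 ≤ L) (g : ℕ → Option Bool) (m : ℕ) : ∀ z : ℕ,
    ∑ t ∈ Wd m, Phi L g z t ≤ L ^ m := by
  have hL0 : 0 ≤ L := by linarith
  induction m with
  | zero =>
    intro z
    simp [Wd, Phi]
  | succ m ih =>
    intro z
    have hdis : Disjoint ((Wd m).image (List.cons true)) ((Wd m).image (List.cons false)) := by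
      rw [Finset.disjoint_left]
      intro t ht ht'
      obtain ⟨a, -, ha⟩ := Finset.mem_image.1 ht
      obtain ⟨b, -, hb⟩ := Finset.mem_image.1 ht'
      rw [← ha] at hb
      simp at hb
    have h0 : ∑ t ∈ Wd (m + 1), Phi L g z t =
        (∑ t ∈ Wd m, Phi L g z (true :: t)) + ∑ t ∈ Wd m, Phi L g z (false :: t) := by
      show ∑ t ∈ (Wd m).image (List.cons true) ∪ (Wd m).image (List.cons false), _ = _
      rw [Finset.sum_union hdis, Finset.sum_image (fun a _ b _ h => by simpa using h),
        Finset.sum_image (fun a _ b _ h => by simpa using h)]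
    rw [h0]
    have h1 := ih (stp true z)
    have h2 := ih (stp false z)
    have hp : 0 ≤ L ^ m := by positivity
    simp only [Phi]
    rw [← Finset.mul_sum, ← Finset.mul_sum, pow_succ]
    cases hg : g z with
    | none =>
      dsimp only
      nlinarith
    | some e =>
      cases e
      · dsimp only
        rw [if_neg (by decide), if_pos rfl]
        nlinarith
      · dsimp only
        rw [if_neg (show ¬ (false = true) by decide), if_pos rfl]
        nlinarith

theorem sum_words {L : ℝ} (hL : 2 ≤ L) (g : ℕ → Option Bool) (m z : ℕ) (T : Finset (List Bool))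
    (hT : ∀ t ∈ T, t.length = m) : ∑ t ∈ T, Phi L g z t ≤ L ^ m := by
  refine le_trans ?_ (sum_Wd hL g m z)
  exact Finset.sum_le_sum_of_subset_of_nonneg (fun t ht => mem_Wd m t (hT t ht))
    fun t _ _ => phi_nonneg (by linarith) g z t

theorem first (L : ℝ) (g : ℕ → Option Bool) (P : Finset ℕ) (hP : ∀ p, (g p).isSome → p ∈ P) :
    ∀ (w : List Bool) (n : ℕ), (∃ p ∈ pos n w, (g p).isSome) → ∃ i < w.length,
      val n (w.take i) ∈ P ∧ Phi L g n w = Phi L g (val n (w.take i)) (w.drop i) := by
  intro w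
  induction w with
  | nil =>
    rintro n ⟨p, hp, -⟩
    simp [pos] at hp
  | cons d w ih =>
    rintro n ⟨p, hp, hgp⟩
    by_cases hn : (g n).isSome
    · exact ⟨0, by simp, hP n hn, rfl⟩
    · have hpw : p ∈ pos (stp d n) w := by
        rw [pos, List.mem_cons] at hp
        rcases hp with rfl | hp
        · exact absurd hgp hn
        · exact hp
      obtain ⟨i, hi, h1, h2⟩ := ih (stp d n) ⟨p, hpw, hgp⟩
      refine ⟨i + 1, by simpa using hi, h1, ?_⟩
      have hg : g n = none := by simpa using hn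
      have h3 : Phi L g n (d :: w) = Phi L g (stp d n) w := by
        simp only [Phi, hg, one_mul]
      rw [h3, h2]
      rfl

theorem t : StmC := by
  classical
  intro L hL g P hP I S k hS
  have hL0 : (0 : ℝ) ≤ L := by linarith
  obtain ⟨X, hX⟩ : ∃ X : Finset (ℕ × List Bool), X = (I ×ˢ S).filter
    (fun x => ∃ p ∈ pos x.1 x.2, (g p).isSome) := ⟨_, rfl⟩
  have hXm : ∀ x ∈ X, x.1 ∈ I ∧ x.2 ∈ S ∧ ∃ p ∈ pos x.1 x.2, (g p).isSome := by
    intro x hx
    rw [hX, Finset.mem_filter, Finset.mem_product] at hx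
    exact ⟨hx.1.1, hx.1.2, hx.2⟩
  have h1 : ∀ x ∈ X, Phi L g x.1 x.2 ≤ ∑ i ∈ Finset.range k,
      if val x.1 (x.2.take i) ∈ P then Phi L g (val x.1 (x.2.take i)) (x.2.drop i) else 0 := by
    intro x hx
    obtain ⟨-, hxS, hxg⟩ := hXm x hx
    obtain ⟨i, hi, h2, h3⟩ := first L g P hP x.2 x.1 hxg
    rw [hS _ hxS] at hi
    have h4 := Finset.single_le_sum (f := fun i =>
      if val x.1 (x.2.take i) ∈ P then Phi L g (val x.1 (x.2.take i)) (x.2.drop i) else 0)
      (fun j _ => by
        split_ifs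
        · exact phi_nonneg hL0 _ _ _
        · exact le_rfl) (Finset.mem_range.2 hi)
    have h5 : (if val x.1 (x.2.take i) ∈ P then Phi L g (val x.1 (x.2.take i)) (x.2.drop i) else 0) ≤
        ∑ i ∈ Finset.range k,
      if val x.1 (x.2.take i) ∈ P then Phi L g (val x.1 (x.2.take i)) (x.2.drop i) else 0 := h4
    rw [if_pos h2, ← h3] at h5
    exact h5
  have h2 : ∑ x ∈ X, Phi L g x.1 x.2 ≤ ∑ i ∈ Finset.range k, ∑ x ∈ X,
      if val x.1 (x.2.take i) ∈ P then Phi L g (val x.1 (x.2.take i)) (x.2.drop i) else 0 := by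
    rw [Finset.sum_comm]
    exact Finset.sum_le_sum h1
  have h3 : ∀ i ∈ Finset.range k, (∑ x ∈ X,
      if val x.1 (x.2.take i) ∈ P then Phi L g (val x.1 (x.2.take i)) (x.2.drop i) else 0) ≤
      L ^ (k - i) * (((I ×ˢ S.image (fun w => w.take i)).filter
        (fun x => val x.1 x.2 ∈ P)).card : ℝ) := by
    intro i _
    rw [← Finset.sum_filter]
    have hmap : ∀ x ∈ X.filter (fun x => val x.1 (x.2.take i) ∈ P), (x.1, x.2.take i) ∈
        (I ×ˢ S.image (fun w => w.take i)).filter (fun x => val x.1 x.2 ∈ P) := by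
      intro x hx
      rw [Finset.mem_filter] at hx
      obtain ⟨hI, hxS, -⟩ := hXm x hx.1
      rw [Finset.mem_filter, Finset.mem_product]
      exact ⟨⟨hI, Finset.mem_image_of_mem _ hxS⟩, hx.2⟩
    rw [← Finset.sum_fiberwise_of_maps_to hmap]
    rw [mul_comm, ← nsmul_eq_mul]
    refine Finset.sum_le_card_nsmul _ _ _ fun y hy => ?_
    obtain ⟨Y, hY⟩ : ∃ Y : Finset (ℕ × List Bool), Y = (X.filter
      (fun x => val x.1 (x.2.take i) ∈ P)).filter (fun x => (x.1, x.2.take i) = y) := ⟨_, rfl⟩
    rw [← hY]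
    have hYm : ∀ x ∈ Y, x.1 = y.1 ∧ x.2.take i = y.2 ∧ x.2.length = k := by
      intro x hx
      rw [hY, Finset.mem_filter, Finset.mem_filter] at hx
      obtain ⟨-, hxS, -⟩ := hXm x hx.1.1
      have e := hx.2
      refine ⟨?_, ?_, hS _ hxS⟩
      · rw [← e]
      · rw [← e]
    have h4 : ∑ x ∈ Y, Phi L g (val x.1 (x.2.take i)) (x.2.drop i) =
        ∑ t ∈ Y.image (fun x => x.2.drop i), Phi L g (val y.1 y.2) t := by
      rw [Finset.sum_image]
      · refine Finset.sum_congr rfl fun x hx => ?_
        obtain ⟨e1, e2, -⟩ := hYm x hx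
        rw [e1, e2]
      · intro x hx x' hx' he
        obtain ⟨e1, e2, -⟩ := hYm x hx
        obtain ⟨e1', e2', -⟩ := hYm x' hx'
        refine Prod.ext (e1.trans e1'.symm) ?_
        rw [← List.take_append_drop i x.2, ← List.take_append_drop i x'.2, e2, e2']
        exact congrArg _ he
    rw [h4]
    refine sum_words hL g (k - i) _ _ fun t ht => ?_
    obtain ⟨x, hx, rfl⟩ := Finset.mem_image.1 ht
    rw [List.length_drop, (hYm x hx).2.2]
  rw [← hX]
  exact h2.trans (Finset.sum_le_sum h3)

end Pool.Agent.N950.CL
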